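import Pool.Agent.Y850.TC.Full

set_option autoImplicit false

/-!
# A trivial characteristic T-ideal of the free alternative algebra outside of the nucleus

The free alternative algebra over a field in which `2` and `3` are not zero, on any set of at least
nine generators, has an ideal with zero product, stable under all derivations and under all
endomorphisms, and not inside the associative center; for infinitely many generators it has infinite
rank modulo the associative center. The definitions of `FreeAlt`, `nucleus` and `Dideal` are in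
`Pool/Agent/Helper805/Nuc/Free.lean`, the definition of `pr` is in `Pool/Agent/W429/TCI/Defs.lean`.
-/

namespace Pool.Agent.Results.MP_273d7a_al.FullyInvariant

open Pool.Agent.Helper805.Nuc.Free Pool.Agent.W429.TCI Pool.Agent.Y850.TC

theorem result (F : Type) [Field F] (h2 : (2 : F) ≠ 0) (h3 : (3 : F) ≠ 0) (X : Type)
    (hX : Nonempty (Fin 9 ↪ X)) :
    ∃ I : Submodule F (FreeAlt F X),
      (∀ a : FreeAlt F X, ∀ x ∈ I, a * x ∈ I ∧ x * a ∈ I) ∧
      (∀ u ∈ I, ∀ v ∈ I, u * v = 0) ∧
      (∀ δ : FreeAlt F X →ₗ[F] FreeAlt F X, (∀ a b, δ (a * b) = δ a * b + a * δ b) →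
        ∀ x ∈ I, δ x ∈ I) ∧
      (∀ f : FreeAlt F X →ₗ[F] FreeAlt F X, (∀ a b, f (a * b) = f a * f b) →
        ∀ x ∈ I, f x ∈ I) ∧
      I ≤ pr F (Dideal F (FreeAlt F X)) (Dideal F (FreeAlt F X)) ∧
      (∃ n ∈ I, ∃ a b : FreeAlt F X, (n * a) * b ≠ n * (a * b)) ∧
      (Infinite X → ∃ z : X → FreeAlt F X, (∀ x, z x ∈ I) ∧
        LinearIndependent F (fun x => (nucleus F (FreeAlt F X)).mkQ (z x))) := by
  obtain ⟨ι⟩ := hX
  obtain ⟨I, hI1, hI2, hI3, hI4, hI5, hI6⟩ := exists_full (F := F) h2 h3 ι
  refine ⟨I, hI1, hI2, hI3, ?_, hI5, ?_, ?_⟩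
  · intro f hf x hx
    exact hI4 { f with
      map_smul' := fun r a => f.map_smul r a
      map_zero' := f.map_zero
      map_mul' := hf } x hx
  · by_contra hcon
    push Not at hcon
    apply hI6
    intro n hn
    refine (Pool.Agent.Helper805.Nuc.Alt.mem_nucleus FreeAlt.isAlt).2 fun a b => ?_
    show (n * a) * b - n * (a * b) = 0
    rw [hcon n hn a b, sub_self]
  · intro hinf
    exact rank_of_full hI4 hI6

end Pool.Agent.Results.MP_273d7a_al.FullyInvariant
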